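import Mathlib
import Pool.Agent.N993.RK.Stm

/-!
# RK/COMP: the three copies agree on the groups `K i`
-/

set_option autoImplicit false

namespace Pool.Agent.N265.RK

open Matrix Pool.Agent.N993.RK

/-- the entries of the diagonal matrices -/
noncomputable def dd (v : Om) : Fin 3 → Fin 3 → Om :=
  ![![v, v, v⁻¹ ^ 2], ![1, 1, 1], ![v ^ 2, v⁻¹, v⁻¹]]

theorem dd_ne {v : Om} (hv : v ≠ 0) (m a : Fin 3) : dd v m a ≠ 0 := by
  fin_cases m <;> fin_cases a <;> simp [dd, hv]

theorem mt_E {v : Om} (hv : v ≠ 0) (m : Fin 3) : mt (E v hv m) = Matrix.diagonal (dd v m) := by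
  fin_cases m
  · rfl
  · show mt (1 : SL Om) = Matrix.diagonal ![1, 1, 1]
    rw [mt_one]
    ext i j
    fin_cases i <;> fin_cases j <;> simp
  · rfl

theorem mt_E_inv {v : Om} (hv : v ≠ 0) (m : Fin 3) :
    mt (E v hv m)⁻¹ = Matrix.diagonal (fun a => (dd v m a)⁻¹) := by
  have h1 : mt (E v hv m) * mt (E v hv m)⁻¹ = 1 := mt_mul_inv _
  have h2 : Matrix.diagonal (fun a => (dd v m a)⁻¹) * mt (E v hv m) = 1 := by
    rw [mt_E, Matrix.diagonal_mul_diagonal]
    rw [← Matrix.diagonal_one]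
    congr 1
    funext a
    exact inv_mul_cancel₀ (dd_ne hv m a)
  calc mt (E v hv m)⁻¹ = (Matrix.diagonal (fun a => (dd v m a)⁻¹) * mt (E v hv m)) *
        mt (E v hv m)⁻¹ := by rw [h2, Matrix.one_mul]
    _ = Matrix.diagonal (fun a => (dd v m a)⁻¹) := by
        rw [Matrix.mul_assoc, h1, Matrix.mul_one]

theorem block {k : Type} [Field k] [CharP k 5] {i : Fin 3} {g : H0 k} (hg : g ∈ K k i) :
    (∀ a, mt g.1 a i = if a = i then 1 else 0) ∧ ∀ b, mt g.1 i b = if i = b then 1 else 0 := by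
  have h1 : mt g.1 *ᵥ (Pi.single i 1) = Pi.single i 1 := hg
  have h2 : ∀ a, mt g.1 a i = if a = i then 1 else 0 := by
    intro a
    have h3 := congrFun h1 a
    rw [Matrix.mulVec_single_one] at h3
    rw [Pi.single_apply] at h3
    exact h3
  refine ⟨h2, fun b => ?_⟩
  have h3 : mt g.1 * ct 1 (mt g.1) = 1 := g.2
  have h4 : ct 1 (mt g.1) * mt g.1 = 1 := mul_eq_one_comm.1 h3
  have h5 := congrFun (congrFun h4 i) b
  rw [Matrix.mul_apply, Matrix.one_apply] at h5
  rw [← h5, Finset.sum_eq_single i]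
  · rw [ct_apply, h2 i, if_pos rfl, one_pow, one_mul]
  · intro a _ ha
    rw [ct_apply, h2 a, if_neg ha, zero_pow (by norm_num), zero_mul]
  · intro h
    exact absurd (Finset.mem_univ _) h

theorem t_comp : S_COMP := by
  intro k _ _ f v hv m m' i hm hm' g hg
  obtain ⟨h1, h2⟩ := block hg
  obtain ⟨x, hx⟩ : ∃ x, x = SpecialLinearGroup.map f g.1 := ⟨_, rfl⟩
  have hxe : ∀ a b, mt x a b = f (mt g.1 a b) := by
    intro a b
    rw [hx]
    rfl
  have h1' : ∀ a, a ≠ i → mt x a i = 0 := by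
    intro a ha
    rw [hxe, h1 a, if_neg ha, map_zero]
  have h2' : ∀ b, i ≠ b → mt x i b = 0 := by
    intro b hb
    rw [hxe, h2 b, if_neg hb, map_zero]
  have hent : ∀ m a b, mt (ph f v hv m g) a b = dd v m a * mt x a b * (dd v m b)⁻¹ := by
    intro m a b
    have h3 : ph f v hv m g = E v hv m * x * (E v hv m)⁻¹ := by
      rw [hx]
      rfl
    rw [h3, mt_mul, mt_mul, mt_E, mt_E_inv, Matrix.mul_diagonal, Matrix.diagonal_mul]
  apply mt_inj
  ext a b
  rw [hent, hent]
  by_cases hab : a = b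
  · subst hab
    rw [mul_comm (dd v m a), mul_comm (dd v m' a), mul_assoc, mul_assoc,
      mul_inv_cancel₀ (dd_ne hv m a), mul_inv_cancel₀ (dd_ne hv m' a)]
  by_cases hai : a = i
  · subst hai
    rw [h2' b hab]
    simp
  by_cases hbi : b = i
  · subst hbi
    rw [h1' a hab]
    simp
  -- now `a, b` are the other two indices
  have key : dd v m a * dd v m' b = dd v m' a * dd v m b := by
    have : ∀ m m' i a b : Fin 3, i ≠ m → i ≠ m' → a ≠ b → a ≠ i → b ≠ i →
        dd v m a * dd v m' b = dd v m' a * dd v m b := by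
      intro m m' i a b
      fin_cases m <;> fin_cases m' <;> fin_cases i <;> fin_cases a <;> fin_cases b <;>
        simp [dd] <;> field_simp
    exact this m m' i a b hm hm' hab hai hbi
  have n1 := dd_ne hv m b
  have n2 := dd_ne hv m' b
  field_simp
  linear_combination (mt x a b) * key

end Pool.Agent.N265.RK
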